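import Pool.Agent.Y995.LG.Stm

/-!
Step GL of the project LG: almost every limit point is a good limit of configurations.
-/

set_option autoImplicit false

namespace Pool.Agent.Y431.LG

open Pool.Agent.Y995.LG H984P H984N MeasureTheory Filter Topology
open scoped ENNReal

theorem gl_abs {X Ω : Type*} [MetricSpace X] [CompleteSpace X] [SecondCountableTopology X]
    [MeasurableSpace X] [BorelSpace X]
    (P : ℕ → OuterMeasure Ω) (S : ℕ → Set Ω) (hPS : ∀ i, P i (S i)ᶜ = 0)
    (f : ℕ → Ω → X) (L : ℕ → ProbabilityMeasure X)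
    (hL : ∀ i, ∀ A : Set X, MeasurableSet A → (L i : Measure X) A = P i {ω | f i ω ∈ A})
    (μ : ProbabilityMeasure X) (hμ : Tendsto L atTop (𝓝 μ))
    (Y : ℕ → ℕ → Ω → X) (M : ℕ → ℕ → ProbabilityMeasure X)
    (hM : ∀ j i, ∀ A : Set X, MeasurableSet A → (M j i : Measure X) A = P i {ω | Y j i ω ∈ A})
    (ν : ℕ → ProbabilityMeasure X) (hν : ∀ j, Tendsto (M j) atTop (𝓝 (ν j)))
    (G : ℕ → Set X) (hG : ∀ j, ∀ᵐ y ∂(ν j : Measure X), y ∈ G j) :
    ∀ᵐ x ∂(μ : Measure X), ∃ (φ : ℕ → ℕ) (F : ℕ → Ω) (y : ℕ → X), StrictMono φ ∧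
      (∀ m, F m ∈ S (φ m)) ∧ Tendsto (fun m => f (φ m) (F m)) atTop (𝓝 x) ∧
      ∀ j, y j ∈ G j ∧ Tendsto (fun m => Y j (φ m) (F m)) atTop (𝓝 (y j)) := by
  classical
  rw [ae_iff]
  refine le_antisymm (ENNReal.le_of_forall_pos_le_add fun ε hε _ => ?_) bot_le
  rw [zero_add]
  obtain ⟨e, he1, he2⟩ := ENNReal.exists_pos_sum_of_countable' (ι := ℕ)
    (ENNReal.coe_ne_zero.2 hε.ne')
  -- the compact sets
  have hK : ∀ j, ∃ K : Set X, K ⊆ G j ∧ IsCompact K ∧ (ν j : Measure X) Kᶜ < e j := by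
    intro j
    have h1 : (ν j : Measure X) (G j)ᶜ = 0 := hG j
    let T := toMeasurable (ν j : Measure X) (G j)ᶜ
    have hT1 : MeasurableSet T := measurableSet_toMeasurable _ _
    have hT2 : (ν j : Measure X) T = 0 := by rw [measure_toMeasurable, h1]
    obtain ⟨K, hK1, hK2, hK3⟩ := hT1.compl.exists_isCompact_sdiff_lt
      (μ := (ν j : Measure X)) (measure_ne_top _ _) (he1 j).ne'
    refine ⟨K, ?_, hK2, ?_⟩
    · refine hK1.trans ?_
      rw [Set.compl_subset_comm]
      exact subset_toMeasurable _ _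
    · refine lt_of_le_of_lt ?_ hK3
      calc (ν j : Measure X) Kᶜ ≤ (ν j : Measure X) (Tᶜ \ K ∪ T) := by
            apply measure_mono
            intro x hx
            by_cases h : x ∈ T
            · exact Or.inr h
            · exact Or.inl ⟨h, hx⟩
        _ ≤ (ν j : Measure X) (Tᶜ \ K) + (ν j : Measure X) T := measure_union_le _ _
        _ = (ν j : Measure X) (Tᶜ \ K) := by rw [hT2, add_zero]
  choose K hKG hKc hKe using hK
  let δ : ℕ → ℝ := fun m => 1 / ((m : ℝ) + 1)
  have hδ : ∀ m, 0 < δ m := fun m => Nat.one_div_pos_of_nat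
  have hδm : ∀ {m m' : ℕ}, m ≤ m' → δ m' ≤ δ m := fun {m m'} h =>
    Nat.one_div_le_one_div h
  let B : ℕ → ℕ → Set Ω := fun m i =>
    {ω | ω ∈ S i ∧ ∀ j ≤ m, Y j i ω ∈ Metric.thickening (δ m) (K j)}
  let C : ℕ → Set X := fun m => closure {x | ∃ i, m ≤ i ∧ ∃ ω ∈ B m i, f i ω = x}
  have hBm : ∀ {m m' : ℕ}, m ≤ m' → ∀ i, B m' i ⊆ B m i := by
    intro m m' h i ω hω
    exact ⟨hω.1, fun j hj => Metric.thickening_mono (hδm h) _ (hω.2 j (hj.trans h))⟩
  have hCm : ∀ {m m' : ℕ}, m ≤ m' → C m' ⊆ C m := by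
    intro m m' h
    apply closure_mono
    rintro x ⟨i, hi, ω, hω, rfl⟩
    exact ⟨i, h.trans hi, ω, hBm h i hω, rfl⟩
  -- the measure of the complement of `C m`
  have hCe : ∀ m, (μ : Measure X) (C m)ᶜ ≤ ε := by
    intro m
    have ho : IsOpen (C m)ᶜ := isClosed_closure.isOpen_compl
    have h1 := ProbabilityMeasure.le_liminf_measure_open_of_tendsto hμ ho
    refine h1.trans ?_
    have h2 : ∀ j, ∀ᶠ i in atTop,
        P i {ω | Y j i ω ∉ Metric.thickening (δ m) (K j)} < e j := by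
      intro j
      have hcl : IsClosed (Metric.thickening (δ m) (K j))ᶜ :=
        Metric.isOpen_thickening.isClosed_compl
      have h3 := ProbabilityMeasure.limsup_measure_closed_le_of_tendsto (hν j) hcl
      have h4 : (ν j : Measure X) (Metric.thickening (δ m) (K j))ᶜ < e j := by
        refine lt_of_le_of_lt (measure_mono ?_) (hKe j)
        exact Set.compl_subset_compl.2 (Metric.self_subset_thickening (hδ m) _)
      have h5 := eventually_lt_of_limsup_lt (lt_of_le_of_lt h3 h4)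
      filter_upwards [h5] with i hi
      rw [hM j i _ hcl.measurableSet] at hi
      exact hi
    have h3 : ∀ᶠ i in atTop, ∀ j ∈ Finset.range (m + 1),
        P i {ω | Y j i ω ∉ Metric.thickening (δ m) (K j)} < e j :=
      (Filter.eventually_all_finset _).2 fun j _ => h2 j
    have h4 : ∀ᶠ i in atTop, (L i : Measure X) (C m)ᶜ ≤ ε := by
      filter_upwards [h3, eventually_ge_atTop m] with i hi him
      rw [hL i _ ho.measurableSet]
      calc P i {ω | f i ω ∈ (C m)ᶜ}
          ≤ P i ((S i)ᶜ ∪ ⋃ j ∈ Finset.range (m + 1),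
              {ω | Y j i ω ∉ Metric.thickening (δ m) (K j)}) := by
            apply measure_mono
            intro ω hω
            by_contra hcon
            apply hω
            apply subset_closure
            simp only [Set.mem_union, Set.mem_compl_iff, Set.mem_iUnion, not_or, not_exists,
              not_not, Finset.mem_range] at hcon
            refine ⟨i, him, ω, ⟨hcon.1, fun j hj => ?_⟩, rfl⟩
            have := hcon.2 j (Nat.lt_succ_of_le hj)
            by_contra h
            exact this h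
        _ ≤ P i (S i)ᶜ + P i (⋃ j ∈ Finset.range (m + 1),
              {ω | Y j i ω ∉ Metric.thickening (δ m) (K j)}) := measure_union_le _ _
        _ = P i (⋃ j ∈ Finset.range (m + 1),
              {ω | Y j i ω ∉ Metric.thickening (δ m) (K j)}) := by rw [hPS, zero_add]
        _ ≤ ∑ j ∈ Finset.range (m + 1), P i {ω | Y j i ω ∉ Metric.thickening (δ m) (K j)} :=
            measure_biUnion_finset_le _ _
        _ ≤ ∑ j ∈ Finset.range (m + 1), e j := Finset.sum_le_sum fun j hj => (hi j hj).le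
        _ ≤ ∑' j, e j := ENNReal.sum_le_tsum _
        _ ≤ ε := he2.le
    exact (Filter.liminf_le_of_frequently_le' h4.frequently)
  -- the good points
  have hsub : {x | ¬ ∃ (φ : ℕ → ℕ) (F : ℕ → Ω) (y : ℕ → X), StrictMono φ ∧
      (∀ m, F m ∈ S (φ m)) ∧ Tendsto (fun m => f (φ m) (F m)) atTop (𝓝 x) ∧
      ∀ j, y j ∈ G j ∧ Tendsto (fun m => Y j (φ m) (F m)) atTop (𝓝 (y j))} ⊆
      ⋃ m, (C m)ᶜ := by
    intro x hx
    by_contra hcon
    simp only [Set.mem_iUnion, Set.mem_compl_iff, not_exists, not_not] at hcon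
    apply hx
    have hfreq : ∀ m : ℕ, ∃ᶠ i in atTop, ∃ ω ∈ B m i, dist (f i ω) x < δ m := by
      intro m
      rw [frequently_atTop]
      intro a
      obtain ⟨_, ⟨i, hi, ω, hω, rfl⟩, h3⟩ :=
        Metric.mem_closure_iff.1 (hcon (max a m)) (δ (max a m)) (hδ _)
      refine ⟨i, (le_max_left a m).trans hi, ω, hBm (le_max_right a m) i hω, ?_⟩
      rw [dist_comm]
      exact lt_of_lt_of_le h3 (hδm (le_max_right a m))
    obtain ⟨φ, hφ, hφ2⟩ := extraction_forall_of_frequently hfreq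
    choose F hF1 hF2 using hφ2
    -- approximating points of the compact sets
    have hz : ∀ m j, ∃ z ∈ K j, j ≤ m → dist (Y j (φ m) (F m)) z < δ m := by
      intro m j
      by_cases hjm : j ≤ m
      · obtain ⟨z, hz1, hz2⟩ := Metric.mem_thickening_iff.1 ((hF1 m).2 j hjm)
        exact ⟨z, hz1, fun _ => hz2⟩
      · obtain ⟨z, hz1, -⟩ := Metric.mem_thickening_iff.1 ((hF1 j).2 j le_rfl)
        exact ⟨z, hz1, fun h => absurd h hjm⟩
    choose z hz1 hz2 using hz
    have hcomp : IsCompact (Set.pi Set.univ K) := isCompact_univ_pi hKc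
    obtain ⟨y, hy, ψ, hψ, hψ2⟩ := hcomp.tendsto_subseq (x := z)
      (fun m => fun j _ => hz1 m j)
    have hδ0 : Tendsto δ atTop (𝓝 0) := tendsto_one_div_add_atTop_nhds_zero_nat
    have hδψ : Tendsto (fun m => δ (ψ m)) atTop (𝓝 0) := hδ0.comp hψ.tendsto_atTop
    refine ⟨φ ∘ ψ, F ∘ ψ, y, hφ.comp hψ, fun m => (hF1 (ψ m)).1, ?_, fun j => ⟨?_, ?_⟩⟩
    · rw [tendsto_iff_dist_tendsto_zero]
      exact squeeze_zero (fun _ => dist_nonneg) (fun m => (hF2 (ψ m)).le) hδψ
    · exact hKG j (hy j (Set.mem_univ j))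
    · have h1 : Tendsto (fun m => z (ψ m) j) atTop (𝓝 (y j)) :=
        (tendsto_pi_nhds.1 hψ2) j
      refine h1.congr_dist ?_
      refine squeeze_zero' (Eventually.of_forall fun _ => dist_nonneg) ?_ hδψ
      filter_upwards [eventually_ge_atTop j] with m hm
      rw [dist_comm]
      exact (hz2 (ψ m) j (hm.trans (hψ.id_le m))).le
  refine (measure_mono hsub).trans ?_
  rw [Monotone.measure_iUnion]
  · exact iSup_le hCe
  · intro m m' h
    exact Set.compl_subset_compl.2 (hCm h)

theorem gl : Pool.Agent.Y995.LG.S_GL := by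
  intro k f μ hμ Y ν hν G hG
  let P : ℕ → OuterMeasure (Finset Edge) := fun i =>
    @Measure.toOuterMeasure (Finset Edge) ⊤ (@H342L.lawM (Finset Edge) ⊤ (k i) id)
  have hP : ∀ (i : ℕ) (A : Set (Finset Edge)),
      P i A = ENNReal.ofReal (H342P.Plain.prob (k i) (fun F => F ∈ A)) := by
    intro i A
    exact @H342L.lawM_apply (Finset Edge) ⊤ (k i) id A trivial
  refine gl_abs P (fun i => {F | F ⊆ H342P.Plain.edges (k i)}) ?_ (fun i => f (k i)) _ ?_ μ hμ
    (fun j i => Y j (k i)) _ ?_ ν hν G hG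
  · intro i
    rw [hP]
    apply ENNReal.ofReal_of_nonpos
    refine (H342L.prob_mono (B := fun _ => False) fun F hF h => h hF).trans ?_
    unfold H342P.Plain.prob
    simp
  · intro i A hA
    rw [hP]
    exact H342L.lawOf_apply (k i) (f (k i)) hA
  · intro j i A hA
    rw [hP]
    exact H342L.lawOf_apply (k i) (Y j (k i)) hA

end Pool.Agent.Y431.LG
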