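import Pool.Agent.Y995.LG.Stm

/-!
Step GLOB of the project LG: the gauge inequality for the whole curve, from the gauge inequality
for arcs.
-/

set_option autoImplicit false

namespace Pool.Agent.Y431.LG

open Pool.Agent.Y995.LG H984P H984N MeasureTheory Filter Topology
open scoped ENNReal

/-- The periodic extension of a closed curve is continuous. -/
theorem per_cont (c : C(unitInterval, ℂ)) (h : c 0 = c 1) : Continuous (per c) := by
  have h1 : per c = (Set.IccExtend (zero_le_one : (0:ℝ) ≤ 1) c) ∘ Int.fract := by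
    funext t
    simp only [per, Function.comp]
    rw [Set.IccExtend_of_mem _ _ ⟨Int.fract_nonneg t, (Int.fract_lt_one t).le⟩]
  rw [h1]
  apply ContinuousOn.comp_fract''
  · exact (c.continuous.Icc_extend').continuousOn
  · rw [Set.IccExtend_left, Set.IccExtend_right]
    exact h

theorem per_shift (c : C(unitInterval, ℂ)) (t : unitInterval) (ht : (t : ℝ) < 1) :
    per c ((t : ℝ) + 1) = c t := by
  simp only [per]
  congr 1
  apply Subtype.ext
  show Int.fract ((t : ℝ) + 1) = t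
  rw [Int.fract_add_one, Int.fract_eq_self]
  exact ⟨t.2.1, ht⟩

/-- A curve with the lower gauge inequality is not constant. -/
theorem nc (H : Measure ℂ) (h0 : ∀ z : ℂ, H {z} = 0) (g : ℝ → ℂ) (a : ℝ≥0∞) (ha : 0 < a)
    (u v : ℝ) (hl : ∀ S : Set ℝ, S ⊆ Set.Icc u v → a * volume S ≤ H (g '' S)) (t b : ℝ)
    (hu : u < t) (hv : t < v) (hb : t < b) : ∃ s, t < s ∧ s < b ∧ g s ≠ g t := by
  by_contra hcon
  push Not at hcon
  have hS : Set.Ioo t (min b v) ⊆ Set.Icc u v := by
    intro s hs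
    have := hs.1
    have h2 := lt_min_iff.1 hs.2
    exact ⟨by linarith, h2.2.le⟩
  have h1 := hl _ hS
  have h2 : g '' (Set.Ioo t (min b v)) ⊆ {g t} := by
    rintro _ ⟨s, hs, rfl⟩
    exact hcon s hs.1 (lt_min_iff.1 hs.2).1
  have h3 : H (g '' (Set.Ioo t (min b v))) = 0 := measure_mono_null h2 (h0 _)
  rw [h3] at h1
  have h4 : a * volume (Set.Ioo t (min b v)) = 0 := le_antisymm h1 bot_le
  rcases mul_eq_zero.1 h4 with h5 | h5
  · exact ha.ne' h5
  · rw [Real.volume_Ioo, ENNReal.ofReal_eq_zero] at h5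
    have := lt_min hb hv
    linarith

/-- Images of bounded locally closed sets of reals are Borel. -/
theorem meas_image (g : ℝ → ℂ) (hg : Continuous g) (V L : Set ℝ) (hV : IsOpen V)
    (hL : IsClosed L) (hb : V ∩ L ⊆ Set.Icc 1 2) : MeasurableSet (g '' (V ∩ L)) := by
  obtain ⟨F, hF1, hF2, hF3, -⟩ := hV.exists_iUnion_isClosed
  have h1 : V ∩ L = ⋃ n, (F n ∩ L) := by
    rw [← Set.iUnion_inter, hF3]
  rw [h1, Set.image_iUnion]
  refine MeasurableSet.iUnion fun n => ?_
  have h2 : IsCompact (F n ∩ L) := by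
    refine IsCompact.of_isClosed_subset (isCompact_Icc (a := (1:ℝ)) (b := 2))
      ((hF1 n).inter hL) ?_
    exact (Set.inter_subset_inter_left _ (hF2 n)).trans hb
  exact (h2.image hg).isClosed.measurableSet

theorem main (H : Measure ℂ) (h0 : ∀ z : ℂ, H {z} = 0) (a b : ℝ≥0∞) (ha : 0 < a)
    (g : ℝ → ℂ) (hg : Continuous g) (Q : Set ℂ) (hQ : IsOpen Q)
    (hl : ∀ t0 : ℝ, 1 ≤ t0 → t0 < 2 → g t0 ∈ Q → ∃ u v : ℝ, u < t0 ∧ t0 < v ∧
      ∀ S : Set ℝ, S ⊆ Set.Icc u v → a * volume S ≤ H (g '' S) ∧ H (g '' S) ≤ b * volume S)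
    (hne : ∃ t0 : ℝ, 1 ≤ t0 ∧ t0 < 2 ∧ g t0 ∈ Q)
    (hn : volume {t : ℝ | 1 ≤ t ∧ t < 2 ∧ g t ∉ Q} = 0)
    (hr : H (g '' {t : ℝ | g t ∉ Q}) = 0)
    (D : Set ℂ) (hD : H D = 0)
    (hd : ∀ s t : ℝ, 1 ≤ s → s < t → t < 2 → g s = g t → (∃ r, s < r ∧ r < t ∧ g r ≠ g s) →
      (∃ r, t < r ∧ r < 2 ∧ g r ≠ g t) → g s ∈ D)
    (E : Set ℝ) (hE : E ⊆ Set.Ico 1 2) :
    a * volume E ≤ H (g '' E) ∧ H (g '' E) ≤ b * volume E := by
  classical
  -- the countable cover
  let O : Set ℝ := {t : ℝ | 1 ≤ t ∧ t < 2 ∧ g t ∈ Q}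
  have hl' : ∀ t : O, ∃ w : ℝ × ℝ, w.1 < t.1 ∧ t.1 < w.2 ∧
      ∀ S : Set ℝ, S ⊆ Set.Icc w.1 w.2 → a * volume S ≤ H (g '' S) ∧
        H (g '' S) ≤ b * volume S := by
    intro t
    obtain ⟨u, v, h1, h2, h3⟩ := hl t.1 t.2.1 t.2.2.1 t.2.2.2
    exact ⟨(u, v), h1, h2, h3⟩
  choose w hw1 hw2 hw3 using hl'
  obtain ⟨T, hTc, hT⟩ := TopologicalSpace.isOpen_iUnion_countable
    (fun t : O => Set.Ioo (w t).1 (w t).2) (fun t => isOpen_Ioo)
  have hOne : O.Nonempty := hne
  have hcov : O ⊆ ⋃ t ∈ T, Set.Ioo (w t).1 (w t).2 := by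
    rw [hT]
    intro t ht
    exact Set.mem_iUnion.2 ⟨⟨t, ht⟩, hw1 ⟨t, ht⟩, hw2 ⟨t, ht⟩⟩
  have hTne : T.Nonempty := by
    obtain ⟨t, ht⟩ := hOne
    obtain ⟨i, hi⟩ := Set.mem_iUnion.1 (hcov ht)
    obtain ⟨hiT, -⟩ := Set.mem_iUnion.1 hi
    exact ⟨i, hiT⟩
  obtain ⟨f, hf⟩ := hTc.exists_eq_range hTne
  let W : ℕ → Set ℝ := fun n => Set.Ioo (w (f n)).1 (w (f n)).2
  have hcov2 : O ⊆ ⋃ n, W n := by
    intro t ht
    obtain ⟨i, hi⟩ := Set.mem_iUnion.1 (hcov ht)
    obtain ⟨hiT, hi2⟩ := Set.mem_iUnion.1 hi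
    rw [hf] at hiT
    obtain ⟨n, rfl⟩ := hiT
    exact Set.mem_iUnion.2 ⟨n, hi2⟩
  have hWo : ∀ n, IsOpen (W n) := fun n => isOpen_Ioo
  let J : ℕ → Set ℝ := fun n => O ∩ disjointed W n
  have hOm : MeasurableSet O := by
    have : O = Set.Ici 1 ∩ (Set.Iio 2 ∩ g ⁻¹' Q) := by
      ext t
      rfl
    rw [this]
    exact measurableSet_Ici.inter (measurableSet_Iio.inter (hQ.preimage hg).measurableSet)
  have hJm : ∀ n, MeasurableSet (J n) := fun n =>
    hOm.inter (MeasurableSet.disjointed (fun i => (hWo i).measurableSet) n)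
  have hJd : Pairwise (Function.onFun Disjoint J) := by
    intro i j hij
    exact (disjoint_disjointed W hij).mono Set.inter_subset_right Set.inter_subset_right
  have hJU : ⋃ n, J n = O := by
    show ⋃ n, (O ∩ disjointed W n) = O
    rw [← Set.inter_iUnion, iUnion_disjointed]
    exact Set.inter_eq_left.2 hcov2
  have hJW : ∀ n, J n ⊆ Set.Icc (w (f n)).1 (w (f n)).2 := fun n =>
    (Set.inter_subset_right.trans (disjointed_subset W n)).trans Set.Ioo_subset_Icc_self
  have hJO : ∀ n, J n ⊆ O := fun n => Set.inter_subset_left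
  have hB : ∀ n, MeasurableSet (g '' (J n)) := by
    intro n
    have h1 : J n = ((Set.Iio 2 ∩ g ⁻¹' Q) ∩ W n) ∩ (Set.Ici 1 ∩ ⋂ i, ⋂ _ : i < n, (W i)ᶜ) := by
      show O ∩ disjointed W n = _
      rw [disjointed_eq_inter_compl]
      ext t
      simp only [O, Set.mem_inter_iff, Set.mem_ofPred_eq, Set.mem_Iio, Set.mem_preimage,
        Set.mem_Ici]
      tauto
    rw [h1]
    apply meas_image g hg
    · exact (isOpen_Iio.inter (hQ.preimage hg)).inter (hWo n)
    · refine isClosed_Ici.inter ?_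
      exact isClosed_iInter fun i => isClosed_iInter fun _ => (hWo i).isClosed_compl
    · intro t ht
      exact ⟨ht.2.1, (ht.1.1.1 : t < 2).le⟩
  -- double points
  have hdbl : ∀ s t : ℝ, s ∈ O → t ∈ O → s < t → g s = g t → g s ∈ D := by
    intro s t hs ht hst hgst
    refine hd s t hs.1 hst ht.2.1 hgst ?_ ?_
    · exact nc H h0 g a ha _ _ (fun S hS => (hw3 ⟨s, hs⟩ S hS).1) s t (hw1 ⟨s, hs⟩)
        (hw2 ⟨s, hs⟩) hst
    · exact nc H h0 g a ha _ _ (fun S hS => (hw3 ⟨t, ht⟩ S hS).1) t 2 (hw1 ⟨t, ht⟩)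
        (hw2 ⟨t, ht⟩) ht.2.1
  have hBd : ∀ i j, i ≠ j → H (g '' (J i) ∩ g '' (J j)) = 0 := by
    intro i j hij
    refine measure_mono_null ?_ hD
    rintro z ⟨⟨s, hs, rfl⟩, ⟨t, ht, hts⟩⟩
    have hst : s ≠ t := by
      rintro rfl
      exact Set.disjoint_left.1 (hJd hij) hs ht
    rcases lt_or_gt_of_ne hst with h | h
    · exact hdbl s t (hJO _ hs) (hJO _ ht) h hts.symm
    · rw [← hts]
      exact hdbl t s (hJO _ ht) (hJO _ hs) h hts
  -- the volume
  have hvol : volume (E ∩ O) = ∑' n, volume (E ∩ J n) := by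
    have h1 : (volume.restrict E) (⋃ n, J n) = ∑' n, (volume.restrict E) (J n) :=
      measure_iUnion hJd hJm
    rw [hJU, Measure.restrict_apply hOm] at h1
    rw [Set.inter_comm, h1]
    refine tsum_congr fun n => ?_
    rw [Measure.restrict_apply (hJm n), Set.inter_comm]
  have hvol2 : volume E = volume (E ∩ O) := by
    apply le_antisymm
    · calc volume E ≤ volume ((E ∩ O) ∪ {t : ℝ | 1 ≤ t ∧ t < 2 ∧ g t ∉ Q}) := by
            apply measure_mono
            intro t ht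
            by_cases hq : g t ∈ Q
            · exact Or.inl ⟨ht, (hE ht).1, (hE ht).2, hq⟩
            · exact Or.inr ⟨(hE ht).1, (hE ht).2, hq⟩
        _ ≤ volume (E ∩ O) + volume {t : ℝ | 1 ≤ t ∧ t < 2 ∧ g t ∉ Q} := measure_union_le _ _
        _ = volume (E ∩ O) := by rw [hn, add_zero]
    · exact measure_mono Set.inter_subset_left
  have hEJ : ∀ n, E ∩ J n ⊆ Set.Icc (w (f n)).1 (w (f n)).2 := fun n =>
    Set.inter_subset_right.trans (hJW n)
  constructor
  · -- lower bound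
    have h1 : (H.restrict (g '' E)) (⋃ n, g '' (J n)) =
        ∑' n, (H.restrict (g '' E)) (g '' (J n)) := by
      apply measure_iUnion₀
      · intro i j hij
        have h2 := hBd i j hij
        exact le_antisymm ((Measure.restrict_apply_le _ _).trans h2.le) bot_le
      · intro n
        exact (hB n).nullMeasurableSet
    calc a * volume E = ∑' n, a * volume (E ∩ J n) := by
          rw [hvol2, hvol, ENNReal.tsum_mul_left]
      _ ≤ ∑' n, (H.restrict (g '' E)) (g '' (J n)) := by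
          refine ENNReal.tsum_le_tsum fun n => ?_
          rw [Measure.restrict_apply (hB n)]
          refine ((hw3 (f n) _ (hEJ n)).1).trans (measure_mono ?_)
          rintro _ ⟨t, ht, rfl⟩
          exact ⟨⟨t, ht.2, rfl⟩, ⟨t, ht.1, rfl⟩⟩
      _ = (H.restrict (g '' E)) (⋃ n, g '' (J n)) := h1.symm
      _ ≤ (H.restrict (g '' E)) Set.univ := measure_mono (Set.subset_univ _)
      _ = H (g '' E) := Measure.restrict_apply_univ _
  · -- upper bound
    calc H (g '' E) ≤ H ((⋃ n, g '' (E ∩ J n)) ∪ g '' {t : ℝ | g t ∉ Q}) := by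
          apply measure_mono
          rintro _ ⟨t, ht, rfl⟩
          by_cases hq : g t ∈ Q
          · left
            have htO : t ∈ O := ⟨(hE ht).1, (hE ht).2, hq⟩
            rw [← hJU] at htO
            obtain ⟨n, hn'⟩ := Set.mem_iUnion.1 htO
            exact Set.mem_iUnion.2 ⟨n, t, ⟨ht, hn'⟩, rfl⟩
          · right
            exact ⟨t, hq, rfl⟩
      _ ≤ H (⋃ n, g '' (E ∩ J n)) + H (g '' {t : ℝ | g t ∉ Q}) := measure_union_le _ _
      _ = H (⋃ n, g '' (E ∩ J n)) := by rw [hr, add_zero]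
      _ ≤ ∑' n, H (g '' (E ∩ J n)) := measure_iUnion_le _
      _ ≤ ∑' n, b * volume (E ∩ J n) :=
          ENNReal.tsum_le_tsum fun n => (hw3 (f n) _ (hEJ n)).2
      _ = b * volume E := by rw [ENNReal.tsum_mul_left, ← hvol, ← hvol2]

theorem glob : Pool.Agent.Y995.LG.S_GLOB := by
  intro H h0 c C hc hC p hp hl hne hn hr hD
  have hg : Continuous (per p.1) := per_cont p.1 hp
  have hsq : IsOpen sq := by
    have h1 : sq = {z : ℂ | 0 < z.re} ∩ ({z : ℂ | z.re < 1} ∩ ({z : ℂ | 0 < z.im} ∩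
        {z : ℂ | z.im < 1})) := by
      ext z
      rfl
    rw [h1]
    exact (isOpen_lt continuous_const Complex.continuous_re).inter
      ((isOpen_lt Complex.continuous_re continuous_const).inter
      ((isOpen_lt continuous_const Complex.continuous_im).inter
      (isOpen_lt Complex.continuous_im continuous_const)))
  -- a time of the curve in the square
  have hper1 : per p.1 1 = p.1 0 := by
    have h1 := per_shift p.1 0 (by simp)
    simpa using h1
  have hne' : ∃ t0 : ℝ, 1 ≤ t0 ∧ t0 < 2 ∧ per p.1 t0 ∈ sq := by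
    obtain ⟨t, ht⟩ := hne
    rcases lt_or_eq_of_le t.2.2 with h1 | h1
    · refine ⟨(t : ℝ) + 1, by linarith [t.2.1], by linarith, ?_⟩
      rw [per_shift p.1 t h1]
      exact ht
    · refine ⟨1, le_refl _, by norm_num, ?_⟩
      rw [hper1, hp]
      have h2 : t = 1 := Subtype.ext h1
      rw [← h2]
      exact ht
  have hp2 : 0 < p.2 := by
    obtain ⟨t0, h1, h2, h3⟩ := hne'
    obtain ⟨u, v, -, -, -, -, h4, -⟩ := hl t0 h1 h2 h3
    exact h4
  -- translation of sets of times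
  have hvolE : ∀ S : Set unitInterval,
      volume ((fun s : unitInterval => (s : ℝ) + 1) '' (S \ {1})) = volume S := by
    intro S
    have h1 : (fun s : unitInterval => (s : ℝ) + 1) '' (S \ {1}) =
        (fun x : ℝ => x + 1) '' (Subtype.val '' (S \ {1})) := by
      rw [Set.image_image]
    have h2 : volume ({1} : Set unitInterval) = 0 := by
      rw [unitInterval.volume_apply, Set.image_singleton]
      exact Real.volume_singleton
    rw [h1, Set.image_add_right, measure_preimage_add_right, ← unitInterval.volume_apply,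
      measure_sdiff_null h2]
  have himE : ∀ S : Set unitInterval,
      per p.1 '' ((fun s : unitInterval => (s : ℝ) + 1) '' (S \ {1})) = p.1 '' (S \ {1}) := by
    intro S
    rw [Set.image_image]
    refine Set.image_congr fun s hs => ?_
    refine per_shift p.1 s (lt_of_le_of_ne s.2.2 fun h => hs.2 ?_)
    exact Subtype.ext h
  have hHE : ∀ S : Set unitInterval, H (p.1 '' (S \ {1})) = H (p.1 '' S) := by
    intro S
    apply le_antisymm
    · exact measure_mono (Set.image_mono Set.sdiff_subset)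
    · calc H (p.1 '' S) ≤ H (p.1 '' (S \ {1}) ∪ {p.1 1}) := by
            apply measure_mono
            rintro _ ⟨s, hs, rfl⟩
            by_cases h : s = 1
            · right
              rw [h]
              rfl
            · left
              exact ⟨s, ⟨hs, h⟩, rfl⟩
        _ ≤ H (p.1 '' (S \ {1})) + H {p.1 1} := measure_union_le _ _
        _ = H (p.1 '' (S \ {1})) := by rw [h0, add_zero]
  have hsub : ∀ S : Set unitInterval,
      (fun s : unitInterval => (s : ℝ) + 1) '' (S \ {1}) ⊆ Set.Ico 1 2 := by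
    rintro S _ ⟨s, hs, rfl⟩
    have h1 : (s : ℝ) < 1 := lt_of_le_of_ne s.2.2 fun h => hs.2 (Subtype.ext h)
    have h2 : (0 : ℝ) ≤ s := s.2.1
    exact ⟨by show (1 : ℝ) ≤ (s : ℝ) + 1; linarith, by show (s : ℝ) + 1 < 2; linarith⟩
  have key : ∀ E : Set ℝ, E ⊆ Set.Ico 1 2 →
      ENNReal.ofReal (c * p.2) * volume E ≤ H (per p.1 '' E) ∧
      H (per p.1 '' E) ≤ ENNReal.ofReal (C * p.2) * volume E := by
    intro E hE
    refine main H h0 _ _ (ENNReal.ofReal_pos.2 (mul_pos hc hp2)) (per p.1) hg sq hsq ?_ hne' ?_ ?_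
      (dbl p.1) hD ?_ E hE
    · intro t0 h1 h2 h3
      obtain ⟨u, v, -, h4, h5, -, -, h6⟩ := hl t0 h1 h2 h3
      exact ⟨u, v, h4, h5, h6⟩
    · have h1 := hvolE {t : unitInterval | p.1 t ∉ sq}
      rw [hn] at h1
      refine measure_mono_null ?_ h1
      rintro t ⟨ht1, ht2, ht3⟩
      have hm : t - 1 ∈ Set.Icc (0 : ℝ) 1 := ⟨by linarith, by linarith⟩
      have h2 := per_shift p.1 ⟨t - 1, hm⟩ (by show t - 1 < 1; linarith)
      rw [show ((⟨t - 1, hm⟩ : unitInterval) : ℝ) + 1 = t by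
        show t - 1 + 1 = t; ring] at h2
      refine ⟨⟨t - 1, hm⟩, ⟨?_, ?_⟩, ?_⟩
      · show p.1 ⟨t - 1, hm⟩ ∉ sq
        rw [← h2]
        exact ht3
      · intro h3
        have h4 : t - 1 = 1 := congrArg Subtype.val h3
        linarith
      · show t - 1 + 1 = t
        ring
    · refine measure_mono_null ?_ hr
      rintro _ ⟨t, ht, rfl⟩
      exact ⟨⟨_, rfl⟩, ht⟩
    · intro s t hs hst ht hgst hr1 hr2
      have hms : s - 1 ∈ Set.Icc (0 : ℝ) 1 := ⟨by linarith, by linarith⟩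
      have hmt : t - 1 ∈ Set.Icc (0 : ℝ) 1 := ⟨by linarith, by linarith⟩
      have conv : ∀ r : ℝ, ∀ hr : r - 1 ∈ Set.Icc (0 : ℝ) 1, r < 2 →
          p.1 ⟨r - 1, hr⟩ = per p.1 r := by
        intro r hr hr2
        have h2 := per_shift p.1 ⟨r - 1, hr⟩ (by show r - 1 < 1; linarith)
        rw [show ((⟨r - 1, hr⟩ : unitInterval) : ℝ) + 1 = r by
          show r - 1 + 1 = r; ring] at h2
        exact h2.symm
      obtain ⟨r1, h11, h12, h13⟩ := hr1
      obtain ⟨r2, h21, h22, h23⟩ := hr2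
      have hm1 : r1 - 1 ∈ Set.Icc (0 : ℝ) 1 := ⟨by linarith, by linarith⟩
      have hm2 : r2 - 1 ∈ Set.Icc (0 : ℝ) 1 := ⟨by linarith, by linarith⟩
      refine ⟨⟨s - 1, hms⟩, ⟨t - 1, hmt⟩, ?_, conv s hms (by linarith), ?_, ?_, ?_⟩
      · show s - 1 < t - 1
        linarith
      · rw [conv t hmt ht, hgst]
      · refine ⟨⟨r1 - 1, hm1⟩, ⟨?_, ?_⟩, ?_⟩
        · show s - 1 < r1 - 1
          linarith
        · show r1 - 1 < t - 1
          linarith
        · rw [conv r1 hm1 (by linarith)]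
          exact h13
      · refine ⟨⟨r2 - 1, hm2⟩, Or.inr ?_, ?_⟩
        · show t - 1 < r2 - 1
          linarith
        · rw [conv r2 hm2 h22, hgst]
          exact h23
  refine ⟨hp2, fun S => ?_⟩
  have h1 := key _ (hsub S)
  rw [himE, hHE, hvolE] at h1
  exact h1

end Pool.Agent.Y431.LG
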